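import Mathlib
import Pool.Agent.Q79.TubeB

open Set MeasureTheory

namespace Pool.Agent.Results.MP_00e59b_an.BranchImage

/-- `X` (a subset of a metric space, with the restricted metric) has Nagata dimension at most `d`:
there is `c > 0` such that for every `s > 0` the set `X` has a cover by sets of diameter at most
`c s` in which every subset of `X` of diameter at most `s` meets at most `d + 1` members. -/
def NagataLE {M : Type*} [MetricSpace M] (X : Set M) (d : ℕ) : Prop :=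
  ∃ c : ℝ, 0 < c ∧ ∀ s : ℝ, 0 < s → ∃ 𝒞 : Set (Set M), ⋃₀ 𝒞 = X ∧
    (∀ C ∈ 𝒞, ∀ x ∈ C, ∀ y ∈ C, dist x y ≤ c * s) ∧
    ∀ A ⊆ X, (∀ x ∈ A, ∀ y ∈ A, dist x y ≤ s) → {C ∈ 𝒞 | (C ∩ A).Nonempty}.encard ≤ d + 1

/-- The Nagata dimension, an element of `ℕ ∪ {∞}`. -/
noncomputable def nagataDim {M : Type*} [MetricSpace M] (X : Set M) : ℕ∞ :=
  ⨅ (d : ℕ) (_ : NagataLE X d), (d : ℕ∞)

/-- `g` is a weak derivative of `f` in the open set `D`: integration by parts against every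
smooth test function with compact support in `D`, in every direction `v`. -/
def IsWeakDerivative {n : ℕ} (D : Set (EuclideanSpace ℝ (Fin n)))
    (f : EuclideanSpace ℝ (Fin n) → EuclideanSpace ℝ (Fin n))
    (g : EuclideanSpace ℝ (Fin n) → EuclideanSpace ℝ (Fin n) →L[ℝ] EuclideanSpace ℝ (Fin n)) :
    Prop :=
  ∀ φ : EuclideanSpace ℝ (Fin n) → ℝ, ContDiff ℝ (⊤ : ℕ∞) φ → HasCompactSupport φ →
    tsupport φ ⊆ D → ∀ v : EuclideanSpace ℝ (Fin n),
      ∫ x in D, (fderiv ℝ φ x v) • f x = - ∫ x in D, φ x • g x v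

/-- `f : D → ℝⁿ` is quasiregular: continuous, in `W^{1,n}_loc(D)` (the map and its weak
derivative `g` are in `Lⁿ` on every compact subset of `D`), and `|g(x)|ⁿ ≤ K det g(x)` for almost
every `x` in `D`, for some `K ≥ 1`. -/
def IsQuasiregular {n : ℕ} (D : Set (EuclideanSpace ℝ (Fin n)))
    (f : EuclideanSpace ℝ (Fin n) → EuclideanSpace ℝ (Fin n)) : Prop :=
  ContinuousOn f D ∧
  ∃ g : EuclideanSpace ℝ (Fin n) → EuclideanSpace ℝ (Fin n) →L[ℝ] EuclideanSpace ℝ (Fin n),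
    (∀ C : Set (EuclideanSpace ℝ (Fin n)), IsCompact C → C ⊆ D →
      MemLp f n (volume.restrict C) ∧ MemLp g n (volume.restrict C)) ∧
    IsWeakDerivative D f g ∧
    ∃ K : ℝ, 1 ≤ K ∧ ∀ᵐ x ∂(volume.restrict D), ‖g x‖ ^ n ≤ K * (g x).det

/-- The branch set: the points of `Ω` at which `f` is not a local homeomorphism. -/
def branchSet {n : ℕ} (Ω : Set (EuclideanSpace ℝ (Fin n)))
    (f : EuclideanSpace ℝ (Fin n) → EuclideanSpace ℝ (Fin n)) : Set (EuclideanSpace ℝ (Fin n)) :=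
  {x ∈ Ω | ¬ ∃ e : OpenPartialHomeomorph (EuclideanSpace ℝ (Fin n)) (EuclideanSpace ℝ (Fin n)),
    x ∈ e.source ∧ e.source ⊆ Ω ∧ EqOn f e e.source}

/-- **Q1 is false.** For `n = 3` there are a (convex) domain `Ω ⊆ ℝ³` and a quasiregular map
`f : Ω → ℝ³` with `dim_N f(B_f) ≥ 2 = n - 1`. -/
theorem result :
    (¬ ∀ n : ℕ, 3 ≤ n → ∀ Ω : Set (EuclideanSpace ℝ (Fin n)), IsOpen Ω → IsConnected Ω →
      ∀ f : EuclideanSpace ℝ (Fin n) → EuclideanSpace ℝ (Fin n), IsQuasiregular Ω f →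
        nagataDim (f '' branchSet Ω f) ≤ (n - 2 : ℕ)) ∧
    ∃ Ω : Set (EuclideanSpace ℝ (Fin 3)), IsOpen Ω ∧ Convex ℝ Ω ∧ Ω.Nonempty ∧
      ∃ f : EuclideanSpace ℝ (Fin 3) → EuclideanSpace ℝ (Fin 3), IsQuasiregular Ω f ∧
        2 ≤ nagataDim (f '' branchSet Ω f) := by
  have hdim : 2 ≤ nagataDim (Q79.Tube.F '' branchSet Q79.Tube.Om Q79.Tube.F) := by
    refine le_iInf₂ (fun d hd => ?_)
    by_contra hcon
    push Not at hcon
    have hlt : d < 2 := by exact_mod_cast hcon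
    have hd' : Q79.Nagata.NagataLE (Q79.Tube.F '' branchSet Q79.Tube.Om Q79.Tube.F) d := hd
    refine Q79.Tube.not_nagataLE (fun t => ?_) (hd'.mono (show d ≤ 1 by omega))
    exact ⟨Q79.Tube.ax t, Q79.Tube.ax_branch t, rfl⟩
  have hconv : Convex ℝ Q79.Tube.Om := by
    have h1 : Q79.Tube.Om = {x : EuclideanSpace ℝ (Fin 3) | ‖(⟨x 0, x 1⟩ : ℂ)‖ < 1} := by
      ext x
      show x 0 ^ 2 + x 1 ^ 2 < 1 ↔ _
      rw [Set.mem_ofPred_eq, ← Q79.Tube.rad_eq, Q79.Tube.rad, Real.sqrt_lt' (by norm_num)]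
      simp
    rw [h1]
    intro x hx y hy a b ha hb hab
    have e : (⟨(a • x + b • y) 0, (a • x + b • y) 1⟩ : ℂ) =
        a • (⟨x 0, x 1⟩ : ℂ) + b • (⟨y 0, y 1⟩ : ℂ) := by
      apply Complex.ext <;> simp
    show ‖_‖ < (1 : ℝ)
    rw [e]
    have h2 := convex_ball (0 : ℂ) 1 (x := (⟨x 0, x 1⟩ : ℂ)) (by simpa using hx)
      (y := (⟨y 0, y 1⟩ : ℂ)) (by simpa using hy) ha hb hab
    simpa using h2
  have hne : Q79.Tube.Om.Nonempty := ⟨_, Q79.Tube.ax_mem 0⟩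
  have hqr : IsQuasiregular Q79.Tube.Om Q79.Tube.F := Q79.Tube.quasiregular_F
  refine ⟨fun h => ?_, Q79.Tube.Om, Q79.Tube.isOpen_Om, hconv, hne, Q79.Tube.F, hqr, hdim⟩
  have h1 := h 3 le_rfl Q79.Tube.Om Q79.Tube.isOpen_Om ⟨hne, hconv.isPreconnected⟩
    Q79.Tube.F hqr
  have h2 := hdim.trans h1
  norm_num at h2

end Pool.Agent.Results.MP_00e59b_an.BranchImage
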